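import Pool.Agent.Helper58.DM.Goals

/-!
# Project DM (MP_06d934_gt), packet M_LNK: the Ricci form in terms of the Ricci components.
-/

set_option autoImplicit false

namespace Pool.Agent.Helper82.DM

open Matrix Pool.Agent.Helper58.DH Pool.Agent.Helper58.DM

theorem cls_none : ∀ a b : Fin 5, cls a b = none → a = b := by
  decide

theorem m_lnk (h1 : M_ENT) (h2 : M_RIC) (h3 : M_RHO) : Pool.Agent.Helper58.DM.M_LNK := by
  intro I _ _ F p q m w hS hk hw κ _ _ e he X hX
  obtain ⟨-, hfm, hG, -⟩ := h1 I F hk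
  obtain ⟨⟨hX1, -⟩, hX2⟩ := (hfm X).1 hX
  apply Complex.ofReal_injective
  rw [h2 I F w κ e hk hw he X hX, hG _ X X hX1 hX1]
  unfold Gc
  congr 1
  refine Finset.sum_congr rfl fun i _ => Finset.sum_congr rfl fun j _ => ?_
  rcases hc : cls (F.bl i) (F.bl j) with _ | c
  · have h0 : X i j = 0 := hX2 i j (cls_none _ _ hc)
    rw [h0, zero_mul, mul_zero, mul_zero]
  · have e1 := h3 I F p q m w hS hw i j c hc
    have e2 : xx F (fun c ↦ ric (dF (-F.η) p q m) (AF (-F.η) p q m) w c * w c) i j =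
        ric (dF (-F.η) p q m) (AF (-F.η) p q m) w c * w c := by
      unfold xx
      rw [hc]
      rfl
    rw [e1, e2]

end Pool.Agent.Helper82.DM
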